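import Pool.Agent.Helper60_AEU.Stmt

/-!
AEU Part III, geometry of the blocks (helper69): common tools.
-/

namespace Pool.Agent.H60K.H69

open MeasureTheory Complex Filter Topology ProbabilityTheory Pool.Agent.H16Iso Pool.Agent.H62T
  Pool.Agent.H16F Pool.Agent.H38KL Pool.Agent.H60K

theorem abs_ip_le (u v : ℂ) : |ip u v| ≤ ‖u‖ * ‖v‖ := by
  have h : ip u v = (u * (starRingEnd ℂ) v).re := by
    simp [ip]
  rw [h]
  calc |(u * (starRingEnd ℂ) v).re| ≤ ‖u * (starRingEnd ℂ) v‖ := Complex.abs_re_le_norm _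
    _ = ‖u‖ * ‖v‖ := by simp

theorem ip_sub (u v w : ℂ) : ip u (v - w) = ip u v - ip u w := by
  simp [ip]; ring

theorem ip_diff_le {u : ℂ} (hu : ‖u‖ = 1) (v w : ℂ) : ip u v - ip u w ≤ ‖v - w‖ := by
  rw [← ip_sub]
  have := abs_ip_le u (v - w)
  rw [hu, one_mul] at this
  exact le_trans (le_abs_self _) this

theorem ip_self {u : ℂ} (hu : ‖u‖ = 1) : ip u u = 1 := by
  have h : ip u u = ‖u‖ ^ 2 := by
    rw [Complex.sq_norm, Complex.normSq_apply]; simp [ip]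
  rw [h, hu]; norm_num

theorem ip_rf (u : Fin 3 → ℂ) (h : Fin 3 → ℝ) (s : Fin 3) (hu : ‖u s‖ = 1) (y : ℂ) :
    ip (u s) (rf u h s y) = 2 * h s - ip (u s) y := by
  have h1 : ip (u s) (rf u h s y) = ip (u s) y - 2 * (ip (u s) y - h s) * ip (u s) (u s) := by
    simp only [rf, ip, Complex.sub_re, Complex.sub_im, Complex.mul_re, Complex.mul_im,
      Complex.ofReal_re, Complex.ofReal_im]
    ring
  rw [h1, ip_self hu]; ring

theorem norm_sub_rf_sq (u : Fin 3 → ℂ) (h : Fin 3 → ℝ) (s : Fin 3) (hu : ‖u s‖ = 1) (x y : ℂ) :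
    ‖x - rf u h s y‖ ^ 2 = ‖x - y‖ ^ 2 + 4 * (h s - ip (u s) x) * (h s - ip (u s) y) := by
  have hs : (u s).re ^ 2 + (u s).im ^ 2 = 1 := by
    have := ip_self hu
    simp only [ip] at this
    nlinarith [this]
  rw [Complex.sq_norm, Complex.sq_norm, Complex.normSq_apply, Complex.normSq_apply]
  simp only [rf, ip, Complex.sub_re, Complex.sub_im, Complex.mul_re, Complex.mul_im,
    Complex.ofReal_re, Complex.ofReal_im]
  have h2 : (u s).im ^ 2 = 1 - (u s).re ^ 2 := by linarith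
  linear_combination (4 * ((u s).re * y.re + (u s).im * y.im - h s) ^ 2) * hs

theorem norm_le_dd (u : Fin 3 → ℂ) (h : Fin 3 → ℝ) (s : Fin 3) (hu : ‖u s‖ = 1) (x y : ℂ) :
    ‖x - y‖ ≤ dd u h s x y := by
  classical
  unfold dd
  split_ifs with hc
  · have h1 := norm_sub_rf_sq u h s hu x y
    have h2 : 0 ≤ 4 * (h s - ip (u s) x) * (h s - ip (u s) y) := by
      have : 0 ≤ h s - ip (u s) x := by linarith [hc.1]
      have : 0 ≤ h s - ip (u s) y := by linarith [hc.2]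
      positivity
    exact (sq_le_sq₀ (norm_nonneg _) (norm_nonneg _)).1 (by linarith)
  · exact le_rfl

theorem norm_le_bl (u : Fin 3 → ℂ) (h : Fin 3 → ℝ) (hu : ∀ s, ‖u s‖ = 1)
    (A : Finset (Fin 3)) (x y : ℂ) : ‖x - y‖ ≤ bl u h A x y := by
  classical
  unfold bl
  refine le_trans ?_ (Finset.le_sup' _ (Finset.mem_univ (0 : Fin 3)))
  split_ifs
  · exact norm_le_dd u h 0 (hu 0) x y
  · exact le_rfl

theorem dd_le_bl (u : Fin 3 → ℂ) (h : Fin 3 → ℝ)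
    (A : Finset (Fin 3)) (s : Fin 3) (hs : s ∈ A) (x y : ℂ) : dd u h s x y ≤ bl u h A x y := by
  classical
  unfold bl
  refine le_trans ?_ (Finset.le_sup' _ (Finset.mem_univ s))
  simp [hs]

theorem vis_le (u : Fin 3 → ℂ) (h : Fin 3 → ℝ) (hu : ∀ s, ‖u s‖ = 1)
    (A : Finset (Fin 3)) (s : Fin 3) (hs : s ∈ A) (x y : ℂ) :
    h s - ip (u s) x ≤ bl u h A x y ∧ h s - ip (u s) y ≤ bl u h A x y := by
  classical
  have h1 := dd_le_bl u h A s hs x y
  have h2 := norm_le_bl u h hu A x y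
  have h3 := ip_diff_le (hu s) y x
  have h4 := ip_diff_le (hu s) x y
  rw [norm_sub_rev] at h3
  unfold dd at h1
  split_ifs at h1 with hc
  · have h5 := ip_diff_le (hu s) (rf u h s y) x
    rw [norm_sub_rev, ip_rf u h s (hu s)] at h5
    constructor <;> linarith [hc.1, hc.2]
  · have h6 : 0 ≤ ‖x - y‖ := norm_nonneg _
    by_cases hx : ip (u s) x < h s
    · have hy : h s ≤ ip (u s) y := by
        by_contra hy
        exact hc ⟨hx, not_le.1 hy⟩
      constructor <;> linarith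
    · push Not at hx
      constructor <;> linarith

/-! ### chains -/

theorem chain (Y : ℕ → ℂ) (β : ℕ → ℝ) (p q : ℕ) (hpq : p ≤ q)
    (h : ∀ m, p ≤ m → m < q → ‖Y m - Y (m + 1)‖ ≤ β m) :
    ‖Y p - Y q‖ ≤ ∑ m ∈ Finset.Ico p q, β m := by
  induction q, hpq using Nat.le_induction with
  | base => simp
  | succ q hq ih =>
    rw [Finset.sum_Ico_succ_top hq]
    have h1 := ih (fun m h1 h2 => h m h1 (by omega))
    have h2 := h q hq (by omega)
    calc ‖Y p - Y (q + 1)‖ = ‖(Y p - Y q) + (Y q - Y (q + 1))‖ := by ring_nf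
      _ ≤ ‖Y p - Y q‖ + ‖Y q - Y (q + 1)‖ := norm_add_le _ _
      _ ≤ _ := add_le_add h1 h2

theorem chain4 (Y : ℕ → ℂ) (β : ℕ → ℝ) (o a b c e : ℕ) (hoa : o ≤ a) (hab : a ≤ b) (hbc : b ≤ c)
    (hce : c ≤ e) (h : ∀ m, o ≤ m → m < e → ‖Y m - Y (m + 1)‖ ≤ β m) :
    ‖Y o - Y a‖ + ‖Y a - Y b‖ + ‖Y b - Y c‖ + ‖Y c - Y e‖ ≤ ∑ m ∈ Finset.Ico o e, β m := by
  have h1 := chain Y β o a hoa (fun m h1 h2 => h m h1 (by omega))
  have h2 := chain Y β a b hab (fun m h1 h2 => h m (by omega) (by omega))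
  have h3 := chain Y β b c hbc (fun m h1 h2 => h m (by omega) (by omega))
  have h4 := chain Y β c e hce (fun m h1 h2 => h m (by omega) (by omega))
  rw [← Finset.sum_Ico_consecutive β hoa (by omega : a ≤ e),
    ← Finset.sum_Ico_consecutive β hab (by omega : b ≤ e),
    ← Finset.sum_Ico_consecutive β hbc (by omega : c ≤ e)]
  linarith

section cyc
variable {n : ℕ} [NeZero n]

theorem ofNat_succ' (m : ℕ) : Fin.ofNat n (m + 1) = Fin.ofNat n m + 1 := by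
  apply Fin.ext
  simp [Fin.add_def, Fin.ofNat, Nat.add_mod]

theorem ofNat_self : Fin.ofNat n n = 0 := by
  apply Fin.ext
  simp [Fin.ofNat]

theorem ofNat_zero' : Fin.ofNat n 0 = 0 := by
  apply Fin.ext
  simp [Fin.ofNat]

theorem sum_rot (b : Fin n → ℝ) (j : Fin n) :
    ∑ m ∈ Finset.Ico 0 n, b (j + Fin.ofNat n m) = ∑ i, b i := by
  rw [← Finset.range_eq_Ico, Finset.sum_range (fun m => b (j + Fin.ofNat n m))]
  refine (Fintype.sum_equiv (Equiv.addLeft j) _ _ ?_)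
  intro i
  have : Fin.ofNat n (i : ℕ) = i := by
    apply Fin.ext
    simp [Fin.ofNat, Nat.mod_eq_of_lt i.isLt]
  rw [this]
  rfl

/-- four points on a closed chain -/
theorem cyc4 (x : Fin n → ℂ) (b : Fin n → ℝ) (h : ∀ j, ‖x j - x (j + 1)‖ ≤ b j) (j : Fin n)
    (p q r : ℕ) (hpq : p ≤ q) (hqr : q ≤ r) (hrn : r ≤ n) :
    ‖x j - x (j + Fin.ofNat n p)‖ + ‖x (j + Fin.ofNat n p) - x (j + Fin.ofNat n q)‖
      + ‖x (j + Fin.ofNat n q) - x (j + Fin.ofNat n r)‖ + ‖x (j + Fin.ofNat n r) - x j‖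
      ≤ ∑ i, b i := by
  have h1 := chain4 (fun m => x (j + Fin.ofNat n m)) (fun m => b (j + Fin.ofNat n m)) 0 p q r n
    (Nat.zero_le _) hpq hqr hrn (by
      intro m _ _
      have := h (j + Fin.ofNat n m)
      rw [add_assoc, ← ofNat_succ'] at this
      exact this)
  rw [sum_rot] at h1
  simpa [ofNat_self, ofNat_zero'] using h1

theorem exists_shift (j k : Fin n) : ∃ m : ℕ, m < n ∧ k = j + Fin.ofNat n m := by
  refine ⟨(k - j : Fin n), (k - j).isLt, ?_⟩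
  have : Fin.ofNat n ((k - j : Fin n) : ℕ) = k - j := by
    apply Fin.ext
    simp [Fin.ofNat, Nat.mod_eq_of_lt (k - j).isLt]
  rw [this]
  abel

/-- two points on a closed chain -/
theorem cyc2 (x : Fin n → ℂ) (b : Fin n → ℝ) (h : ∀ j, ‖x j - x (j + 1)‖ ≤ b j) (j k : Fin n) :
    2 * ‖x j - x k‖ ≤ ∑ i, b i := by
  obtain ⟨m, hm, rfl⟩ := exists_shift j k
  have h1 := cyc4 x b h j 0 0 m le_rfl (Nat.zero_le _) hm.le
  simp only [ofNat_zero', add_zero, sub_self, norm_zero, zero_add] at h1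
  rw [norm_sub_rev (x (j + Fin.ofNat n m)) (x j)] at h1
  linarith

/-- three points on a closed chain -/
theorem cyc3 (x : Fin n → ℂ) (b : Fin n → ℝ) (h : ∀ j, ‖x j - x (j + 1)‖ ≤ b j) (j k l : Fin n) :
    ‖x j - x k‖ + ‖x k - x l‖ + ‖x l - x j‖ ≤ ∑ i, b i := by
  obtain ⟨m, hm, rfl⟩ := exists_shift j k
  obtain ⟨m', hm', rfl⟩ := exists_shift j l
  rcases le_total m m' with hmm | hmm
  · have h1 := cyc4 x b h j 0 m m' (Nat.zero_le _) hmm hm'.le
    simp only [ofNat_zero', add_zero, sub_self, norm_zero, zero_add] at h1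
    exact h1
  · have h1 := cyc4 x b h j 0 m' m (Nat.zero_le _) hmm hm.le
    simp only [ofNat_zero', add_zero, sub_self, norm_zero, zero_add] at h1
    rw [norm_sub_rev (x (j + Fin.ofNat n m)) (x j), norm_sub_rev (x j) (x (j + Fin.ofNat n m')),
      norm_sub_rev (x (j + Fin.ofNat n m')) (x (j + Fin.ofNat n m))] at h1
    linarith

theorem ofNat_ne_one {m : ℕ} (hn : 2 ≤ n) (h2 : m ≠ 1) (hm : m ≤ n) :
    Fin.ofNat n m ≠ 1 := by
  intro h
  have h3 := congrArg Fin.val h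
  have h4 : ((1 : Fin n) : ℕ) = 1 := by
    rw [Fin.val_one']
    exact Nat.mod_eq_of_lt (by omega)
  rw [h4] at h3
  simp only [Fin.ofNat] at h3
  rcases Nat.lt_or_ge m n with h5 | h5
  · rw [Nat.mod_eq_of_lt h5] at h3
    exact h2 h3
  · have : m = n := le_antisymm hm h5
    rw [this, Nat.mod_self] at h3
    omega

theorem ofNat_one' (hn : 2 ≤ n) : Fin.ofNat n 1 = 1 := by
  apply Fin.ext
  rw [Fin.val_one']
  simp [Fin.ofNat]

/-- the starting point of block `m` of a reflected configuration -/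
noncomputable def Yt (u : Fin 3 → ℂ) (h : Fin 3 → ℝ) (x : Fin n → ℂ) (m : ℕ) : ℂ :=
  ini u h x (Fin.ofNat n m)

theorem Yt_one (hn : 2 ≤ n) (u : Fin 3 → ℂ) (h : Fin 3 → ℝ) (x : Fin n → ℂ) :
    Yt u h x 1 = rf u h 0 (x 1) := by
  unfold Yt ini
  rw [ofNat_one' hn, if_pos rfl]

theorem Yt_ne (hn : 2 ≤ n) (u : Fin 3 → ℂ) (h : Fin 3 → ℝ) (x : Fin n → ℂ) {m : ℕ} (hm : m ≤ n)
    (h1 : m ≠ 1) : Yt u h x m = x (Fin.ofNat n m) := by
  have := ofNat_ne_one hn h1 hm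
  unfold Yt ini
  rw [if_neg this]

theorem Yt_n (hn : 2 ≤ n) (u : Fin 3 → ℂ) (h : Fin 3 → ℝ) (x : Fin n → ℂ) :
    Yt u h x n = x 0 := by
  rw [Yt_ne hn u h x le_rfl (by omega), ofNat_self]

theorem Yt_succ (hn : 2 ≤ n) (u : Fin 3 → ℂ) (h : Fin 3 → ℝ) (x : Fin n → ℂ) {m : ℕ}
    (h0 : 1 ≤ m) (hm : m < n) : x (Fin.ofNat n m + 1) = Yt u h x (m + 1) := by
  rw [Yt_ne hn u h x (by omega) (by omega), ofNat_succ']

/-- a sub-chain of a reflected configuration -/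
theorem Lt_ge (hn : 2 ≤ n) (u : Fin 3 → ℂ) (h : Fin 3 → ℝ) (x : Fin n → ℂ)
    (A : Fin n → Finset (Fin 3)) (hu : ∀ s, ‖uc u s‖ = 1) {p q r : ℕ} (h1 : 1 ≤ p) (hpq : p ≤ q)
    (hqr : q ≤ r) (hrn : r ≤ n) :
    ‖rf u h 0 (x 1) - Yt u h x p‖ + ‖Yt u h x p - Yt u h x q‖ + ‖Yt u h x q - Yt u h x r‖
      + ‖Yt u h x r - x 0‖ + ‖x 0 - x 1‖ ≤ Lt u h x A := by
  have h2 := chain4 (Yt u h x)
    (fun m => bl (uc u) (hc h) (A (Fin.ofNat n m)) (Yt u h x m) (Yt u h x (m + 1)))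
    1 p q r n h1 hpq hqr hrn (fun m _ _ => norm_le_bl _ _ hu _ _ _)
  rw [Yt_one hn, Yt_n hn] at h2
  have h3 : Lt u h x A = bl (uc u) (hc h) (A 0) (ini u h x 0) (x (0 + 1))
      + ∑ m ∈ Finset.Ico 1 n,
        bl (uc u) (hc h) (A (Fin.ofNat n m)) (Yt u h x m) (Yt u h x (m + 1)) := by
    unfold Lt
    rw [← sum_rot (fun j => bl (uc u) (hc h) (A j) (ini u h x j) (x (j + 1))) 0,
      Finset.sum_eq_sum_Ico_succ_bot (by omega : 0 < n)]
    simp only [zero_add, ofNat_zero']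
    congr 1
    apply Finset.sum_congr rfl
    intro m hm
    rw [Finset.mem_Ico] at hm
    rw [Yt_succ hn u h x hm.1 hm.2]
    rfl
  rw [h3]
  have h4 : ‖x 0 - x 1‖ ≤ bl (uc u) (hc h) (A 0) (ini u h x 0) (x (0 + 1)) := by
    have h5 : ini u h x 0 = x 0 := by
      unfold ini
      rw [if_neg]
      intro h6
      have := congrArg Fin.val h6
      rw [Fin.val_one', Nat.mod_eq_of_lt (by omega : 1 < n)] at this
      simp at this
    rw [h5, zero_add]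
    exact norm_le_bl _ _ hu _ _ _
  linarith

end cyc

section refl
variable {n : ℕ} [NeZero n]

/-- two points on a reflected configuration -/
theorem Lt_two (hn : 2 ≤ n) (u : Fin 3 → ℂ) (h : Fin 3 → ℝ) (x : Fin n → ℂ)
    (A : Fin n → Finset (Fin 3)) (hu : ∀ s, ‖uc u s‖ = 1) {p q : ℕ} (h1 : 1 ≤ p) (h2 : 1 ≤ q)
    (hp : p ≤ n) (hq : q ≤ n) :
    2 * ‖Yt u h x p - Yt u h x q‖ - ‖rf u h 0 (x 1) - x 1‖ ≤ Lt u h x A := by
  have key : ∀ p q : ℕ, 1 ≤ p → p ≤ q → q ≤ n →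
      2 * ‖Yt u h x p - Yt u h x q‖ - ‖rf u h 0 (x 1) - x 1‖ ≤ Lt u h x A := by
    intro p q h1 hpq hq
    have h3 := Lt_ge hn u h x A hu h1 le_rfl hpq hq
    rw [sub_self, norm_zero, add_zero] at h3
    have h4 : ‖Yt u h x p - Yt u h x q‖ ≤ ‖rf u h 0 (x 1) - Yt u h x p‖
        + ‖rf u h 0 (x 1) - x 1‖ + ‖Yt u h x q - x 0‖ + ‖x 0 - x 1‖ := by
      have e : Yt u h x p - Yt u h x q = -(rf u h 0 (x 1) - Yt u h x p)
          + (rf u h 0 (x 1) - x 1) + (-(Yt u h x q - x 0)) + (-(x 0 - x 1)) := by ring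
      rw [e]
      have t1 := norm_add_le (-(rf u h 0 (x 1) - Yt u h x p) + (rf u h 0 (x 1) - x 1)
        + (-(Yt u h x q - x 0))) (-(x 0 - x 1))
      have t2 := norm_add_le (-(rf u h 0 (x 1) - Yt u h x p) + (rf u h 0 (x 1) - x 1))
        (-(Yt u h x q - x 0))
      have t3 := norm_add_le (-(rf u h 0 (x 1) - Yt u h x p)) (rf u h 0 (x 1) - x 1)
      rw [norm_neg (x 0 - x 1)] at t1
      rw [norm_neg (Yt u h x q - x 0)] at t2
      rw [norm_neg (rf u h 0 (x 1) - Yt u h x p)] at t3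
      linarith
    linarith
  rcases le_total p q with h | h
  · exact key p q h1 h hq
  · rw [norm_sub_rev]
    exact key q p h2 h hp

theorem vis_Yt (hn : 2 ≤ n) (u : Fin 3 → ℂ) (h : Fin 3 → ℝ) (x : Fin n → ℂ)
    (A : Fin n → Finset (Fin 3)) (hu : ∀ s, ‖uc u s‖ = 1) {δ : ℝ} (hS : Sht u h δ x A) {l : ℕ}
    (h1 : 1 ≤ l) (h2 : l < n) {s : Fin 3} (hs : s ∈ A (Fin.ofNat n l)) :
    hc h s - ip (uc u s) (Yt u h x l) < δ ∧ hc h s - ip (uc u s) (Yt u h x (l + 1)) < δ := by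
  have h3 := vis_le (uc u) (hc h) hu (A (Fin.ofNat n l)) s hs (ini u h x (Fin.ofNat n l))
    (x (Fin.ofNat n l + 1))
  have h4 := hS (Fin.ofNat n l)
  rw [← Yt_succ hn u h x h1 h2]
  exact ⟨lt_of_le_of_lt h3.1 h4, lt_of_le_of_lt h3.2 h4⟩

theorem inside_Yt (hn : 2 ≤ n) (u : Fin 3 → ℂ) (h : Fin 3 → ℝ) (x : Fin n → ℂ)
    (A : Fin n → Finset (Fin 3)) (hC : Cnt u h x A) {l : ℕ}
    (h1 : 1 ≤ l) (h2 : l < n) {s : Fin 3} (hs : s ∉ A (Fin.ofNat n l)) :
    ip (uc u s) (Yt u h x l) < hc h s ∧ ip (uc u s) (Yt u h x (l + 1)) < hc h s := by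
  have h0 : Fin.ofNat n l ≠ 0 := by
    intro h3
    have := congrArg Fin.val h3
    simp only [Fin.ofNat, Fin.val_zero, Nat.mod_eq_of_lt h2] at this
    omega
  have h3 := hC (Fin.ofNat n l) s h0 hs
  rw [Yt_succ hn u h x h1 h2] at h3
  exact h3

end refl

/-! ### the standard configuration -/

theorem ip_us0 (η1 η2 : ℝ) (x : ℂ) : ip (us η1 η2 0) x = x.re := by
  simp [us, ip]

theorem us1_re (η1 η2 : ℝ) : (us η1 η2 1).re = -Real.sin η1 := by
  simp [us, Complex.exp_ofReal_mul_I_im]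

theorem us1_im (η1 η2 : ℝ) : (us η1 η2 1).im = Real.cos η1 := by
  simp [us, Complex.exp_ofReal_mul_I_re]

theorem us2_eq (η1 η2 : ℝ) : us η1 η2 2 = -(I * exp (((-η2 : ℝ) : ℂ) * I)) := by
  unfold us
  rw [if_neg (by decide), if_neg (by decide)]
  push_cast
  ring_nf

theorem us2_re (η1 η2 : ℝ) : (us η1 η2 2).re = -Real.sin η2 := by
  rw [us2_eq, Complex.neg_re, Complex.mul_re, Complex.exp_ofReal_mul_I_im,
    Complex.exp_ofReal_mul_I_re, Complex.I_re, Complex.I_im, Real.sin_neg]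
  ring

theorem us2_im (η1 η2 : ℝ) : (us η1 η2 2).im = -Real.cos η2 := by
  rw [us2_eq, Complex.neg_im, Complex.mul_im, Complex.exp_ofReal_mul_I_im,
    Complex.exp_ofReal_mul_I_re, Complex.I_re, Complex.I_im, Real.cos_neg]
  ring

theorem ip_us1 (η1 η2 : ℝ) (x : ℂ) :
    ip (us η1 η2 1) x = -Real.sin η1 * x.re + Real.cos η1 * x.im := by
  rw [ip, us1_re, us1_im]

theorem ip_us2 (η1 η2 : ℝ) (x : ℂ) :
    ip (us η1 η2 2) x = -Real.sin η2 * x.re - Real.cos η2 * x.im := by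
  rw [ip, us2_re, us2_im]; ring

theorem norm_us (η1 η2 : ℝ) (s : Fin 3) : ‖us η1 η2 s‖ = 1 := by
  have h2 : -((η2 : ℂ) * I) = ((-η2 : ℝ) : ℂ) * I := by push_cast; ring
  fin_cases s
  · simp [us]
  · simp [us, Complex.norm_exp_ofReal_mul_I]
  · simp only [us]
    norm_num
    rw [h2, Complex.norm_exp_ofReal_mul_I]

theorem norm_uc (η1 η2 : ℝ) (s : Fin 3) : ‖uc (us η1 η2) s‖ = 1 := by
  unfold uc
  by_cases hs : s = 0
  · subst hs
    simp only [Function.update_self, norm_neg]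
    exact norm_us η1 η2 0
  · rw [Function.update_of_ne hs]
    exact norm_us η1 η2 s

theorem hh0 (d : ℝ) : hh d 0 = d := by simp [hh]
theorem hh1 (d : ℝ) : hh d 1 = 0 := by simp [hh]
theorem hh2 (d : ℝ) : hh d 2 = 0 := by simp [hh]

theorem uc1 (η1 η2 : ℝ) : uc (us η1 η2) 1 = us η1 η2 1 := by
  unfold uc
  rw [Function.update_of_ne (by decide)]
theorem uc2 (η1 η2 : ℝ) : uc (us η1 η2) 2 = us η1 η2 2 := by
  unfold uc
  rw [Function.update_of_ne (by decide)]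
theorem ip_uc0 (η1 η2 : ℝ) (x : ℂ) : ip (uc (us η1 η2) 0) x = -x.re := by
  unfold uc
  rw [Function.update_self]
  simp [us, ip]
theorem hc0 (d : ℝ) : hc (hh d) 0 = -d := by
  unfold hc
  rw [Function.update_self, hh0]
theorem hc1 (d : ℝ) : hc (hh d) 1 = 0 := by
  unfold hc
  rw [Function.update_of_ne (by decide), hh1]
theorem hc2 (d : ℝ) : hc (hh d) 2 = 0 := by
  unfold hc
  rw [Function.update_of_ne (by decide), hh2]

/-- the linear relation between the three normals -/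
theorem rel (η1 η2 : ℝ) (x : ℂ) :
    Real.cos η2 * ip (us η1 η2 1) x + Real.cos η1 * ip (us η1 η2 2) x
      + Real.sin (η1 + η2) * x.re = 0 := by
  rw [ip_us1, ip_us2, Real.sin_add]; ring

theorem rf_re (η1 η2 d : ℝ) (x : ℂ) : (rf (us η1 η2) (hh d) 0 x).re = 2 * d - x.re := by
  simp [rf, us, ip, hh]; ring

theorem rf_im (η1 η2 d : ℝ) (x : ℂ) : (rf (us η1 η2) (hh d) 0 x).im = x.im := by
  simp [rf, us, ip, hh]

theorem norm_rf_sub (η1 η2 d : ℝ) (x : ℂ) (hx : x.re ≤ d) :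
    ‖rf (us η1 η2) (hh d) 0 x - x‖ ≤ 2 * (d - x.re) := by
  have h := Complex.norm_le_abs_re_add_abs_im (rf (us η1 η2) (hh d) 0 x - x)
  rw [Complex.sub_re, Complex.sub_im, rf_re, rf_im, sub_self, abs_zero, add_zero] at h
  rw [abs_of_nonneg (by linarith)] at h
  linarith

/-- before the first visit of line `0` the reflected path is on the other side -/
theorem re_Yt {n : ℕ} [NeZero n] (hn : 2 ≤ n) (η1 η2 d : ℝ) (x : Fin n → ℂ)
    (A : Fin n → Finset (Fin 3)) (hC : Cnt (us η1 η2) (hh d) x A) (hx : (x 1).re < d) {k : ℕ}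
    (hk : Fst A k) {l : ℕ} (h1 : 1 ≤ l) (h2 : l ≤ k) : d < (Yt (us η1 η2) (hh d) x l).re := by
  rcases Nat.eq_or_lt_of_le h1 with h3 | h3
  · rw [← h3, Yt_one hn, rf_re]; linarith
  · obtain ⟨l', rfl⟩ : ∃ l', l = l' + 1 := ⟨l - 1, by omega⟩
    have h4 := hk.2.2.2 l' (by omega) (by omega)
    have h5 := (inside_Yt hn _ _ x A hC (by omega : 1 ≤ l') (by have := hk.2.1; omega) h4).2
    rw [ip_uc0, hc0] at h5
    linarith

end Pool.Agent.H60K.H69
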