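import Pool.Agent.Helper69_AEU3.Geo

/-!
AEU Part III, module B:GEN (helper69): geometry of the blocks in the nonspanning case.
-/

namespace Pool.Agent.H60K.H69

open MeasureTheory Complex Filter Topology ProbabilityTheory Pool.Agent.H16Iso Pool.Agent.H62T
  Pool.Agent.H16F Pool.Agent.H38KL Pool.Agent.H60K

/-- visits of line `1` of a path which avoids line `2` are close to the vertex -/
theorem re_small {η1 η2 δ : ℝ} (h1 : Real.cos η1 < 0) (h2 : 0 < Real.cos η2)
    (hS : 0 < Real.sin (η1 + η2)) (hδ : 0 < δ) (x : ℂ) (hx1 : -δ < ip (us η1 η2 1) x)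
    (hx2 : ip (us η1 η2 2) x < 0) : x.re < 1 / Real.sin (η1 + η2) * δ := by
  have h4 := rel η1 η2 x
  have hc2 : Real.cos η2 ≤ 1 := Real.cos_le_one _
  rw [one_div, inv_mul_eq_div, lt_div_iff₀ hS]
  nlinarith only [h4, h2, hx1, hδ, hc2, mul_pos_of_neg_of_neg h1 hx2]

/-- a point of the window is close to the foot of the altitude -/
theorem window {η1 η2 d w δ K ρ m e : ℝ} (hd : 0 < d) (hk1 : m ≤ -Real.cos η1)
    (hm : 0 < m) (hm2 : m ≤ Real.cos η2) (hδ : 0 < δ) (hρ : 0 < ρ) (he : 0 < e) (hK : 0 < K)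
    (hs1 : 0 < Real.sin η1) (hs2 : 0 < Real.sin η2)
    (hw : e / 2 + (3 + K) * δ ≤ w) (hw1 : w ≤ m * ρ / 4) (hw2 : w * (3 * d) ≤ ρ ^ 2 / 8)
    (hed : e ≤ d) (hwd : w ≤ d)
    (x P : ℂ) (hx : d - 3 * δ < x.re) (hP : P.re < K * δ) (hP1 : -δ < ip (us η1 η2 1) P)
    (hP2 : ip (us η1 η2 2) P < 0) (hxP : 2 * ‖x - P‖ ≤ 2 * d + e) : |x.im| < ρ := by
  have hK0 : 0 < K * δ := mul_pos hK hδ
  have hT : (3 + K) * δ = 3 * δ + K * δ := by ring
  rw [hT] at hw
  have hdist : ‖x - P‖ ≤ d + e / 2 := by linarith only [hxP]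
  have hw0 : 0 < w := by linarith
  have h1 : -w ≤ P.re := by
    have h := Complex.re_le_norm (x - P)
    rw [Complex.sub_re] at h
    linarith
  have h1' : P.re ≤ w := by linarith
  rw [ip_us1] at hP1
  rw [ip_us2] at hP2
  have hs1' : Real.sin η1 ≤ 1 := Real.sin_le_one _
  have hs2' : Real.sin η2 ≤ 1 := Real.sin_le_one _
  have hδw : δ ≤ w := by linarith
  have hr1 : -w ≤ Real.sin η1 * P.re := by
    rcases le_total 0 P.re with h | h
    · have := mul_nonneg hs1.le h
      linarith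
    · nlinarith only [h1, hδ, hs1', he, hs1, hw, hP]
  have hr2 : Real.sin η2 * P.re ≤ w := by
    rcases le_total 0 P.re with h | h
    · nlinarith only [hδ, he, hw, hs2, hP, hK0, hs2']
    · have := mul_nonneg_of_nonpos_of_nonpos (by linarith : -Real.sin η2 ≤ 0) h
      linarith
  have h2 : P.im ≤ ρ / 2 := by
    by_contra hcon
    push Not at hcon
    have h3 : m * (ρ / 2) < -Real.cos η1 * P.im := by
      have e1 : m * (ρ / 2) < m * P.im := mul_lt_mul_of_pos_left hcon hm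
      have e2 : m * P.im ≤ -Real.cos η1 * P.im := mul_le_mul_of_nonneg_right hk1 (by linarith)
      linarith
    linarith
  have h3 : -(ρ / 2) ≤ P.im := by
    by_contra hcon
    push Not at hcon
    have h3 : m * (ρ / 2) < Real.cos η2 * (-P.im) := by
      have e1 : m * (ρ / 2) < m * (-P.im) := mul_lt_mul_of_pos_left (by linarith) hm
      have e2 : m * (-P.im) ≤ Real.cos η2 * (-P.im) := mul_le_mul_of_nonneg_right hm2 (by linarith)
      linarith only [e1, e2]
    linarith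
  have h4 : (x.im - P.im) ^ 2 ≤ (d + e / 2) ^ 2 - (x.re - P.re) ^ 2 := by
    have h := Complex.sq_norm (x - P)
    rw [Complex.normSq_apply, Complex.sub_re, Complex.sub_im] at h
    have h5 : ‖x - P‖ ^ 2 ≤ (d + e / 2) ^ 2 := pow_le_pow_left₀ (norm_nonneg _) hdist 2
    linarith
  have h5 : d - (3 * δ + K * δ) ≤ x.re - P.re := by linarith
  have h6 : 0 ≤ d - (3 * δ + K * δ) := by linarith only [he, hw, hwd]
  have h7 : (d - (3 * δ + K * δ)) ^ 2 ≤ (x.re - P.re) ^ 2 := pow_le_pow_left₀ h6 h5 2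
  have h8 : (x.im - P.im) ^ 2 ≤ w * (3 * d) := by
    have e1 : (d + e / 2) ^ 2 - (d - (3 * δ + K * δ)) ^ 2
        = (e / 2 + (3 * δ + K * δ)) * (2 * d + e / 2 - (3 * δ + K * δ)) := by ring
    have e2 : (e / 2 + (3 * δ + K * δ)) * (2 * d + e / 2 - (3 * δ + K * δ)) ≤ w * (3 * d) := by
      apply mul_le_mul hw _ _ hw0.le
      · linarith only [hδ, hw, hwd, hK0]
      · linarith only [hδ, he, hw, hwd, hK0]
    linarith only [h4, h7, e2]
  have h9 : (x.im - P.im) ^ 2 < (ρ / 2) ^ 2 := by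
    have : 0 < ρ ^ 2 := pow_pos hρ 2
    have e1 : (ρ / 2) ^ 2 = ρ ^ 2 / 4 := by ring
    rw [e1]
    linarith only [hw2, h8, this]
  have h10 := abs_lt_of_sq_lt_sq h9 (by linarith)
  rw [abs_lt] at h10 ⊢
  constructor <;> linarith only [h3, h2, h10.1, h10.2]

/-- the distance from the foot of the altitude to line `2` -/
theorem foot_far {η1 η2 d δ ρ : ℝ} (hs2 : 0 < Real.sin η2) (h2 : 0 < Real.cos η2)
    (hδ : 0 < δ) (x E : ℂ) (hx : d - 3 * δ < x.re) (hxi : -ρ < x.im) (hρ : 0 < ρ)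
    (hE : -δ < ip (us η1 η2 2) E) : Real.sin η2 * d - 4 * δ - ρ ≤ ‖x - E‖ := by
  have h := ip_diff_le (norm_us η1 η2 2) E x
  rw [norm_sub_rev, ip_us2 η1 η2 x] at h
  have hs2' : Real.sin η2 ≤ 1 := Real.sin_le_one _
  have hc2' : Real.cos η2 ≤ 1 := Real.cos_le_one _
  nlinarith

theorem gen : GenStatement := by
  intro η1 η2 d hη1 hη2 hsum hd
  have hpi := Real.pi_pos
  have c1 : Real.cos η1 < 0 := Real.cos_neg_of_pi_div_two_lt_of_lt hη1 (by linarith)
  have c2 : 0 < Real.cos η2 := Real.cos_pos_of_mem_Ioo ⟨by linarith, by linarith⟩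
  have s1 : 0 < Real.sin η1 := Real.sin_pos_of_pos_of_lt_pi (by linarith) (by linarith)
  have s2 : 0 < Real.sin η2 := Real.sin_pos_of_pos_of_lt_pi hη2 (by linarith)
  have hS0 : 0 < Real.sin (η1 + η2) := Real.sin_pos_of_pos_of_lt_pi (by linarith) hsum
  obtain ⟨m, hm, hm1, hm2⟩ : ∃ m : ℝ, 0 < m ∧ m ≤ -Real.cos η1 ∧ m ≤ Real.cos η2 :=
    ⟨min (-Real.cos η1) (Real.cos η2), lt_min (by linarith) c2, min_le_left _ _, min_le_right _ _⟩
  set K : ℝ := 1 / Real.sin (η1 + η2) with hK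
  have hK0 : 0 < K := by positivity
  have s2' : Real.sin η2 ≤ 1 := Real.sin_le_one _
  refine ⟨Real.sin η2 * d / 4, by positivity, fun ρ hρ hρ' => ?_⟩
  obtain ⟨w, hw0, hw1, hw2, hw3⟩ : ∃ w : ℝ, 0 < w ∧ w ≤ m * ρ / 4 ∧ w * (3 * d) ≤ ρ ^ 2 / 8 ∧
      w ≤ Real.sin η2 * d / 4 := by
    refine ⟨min (m * ρ / 4) (min (ρ ^ 2 / (24 * d)) (Real.sin η2 * d / 4)), by positivity,
      min_le_left _ _, ?_, le_trans (min_le_right _ _) (min_le_right _ _)⟩
    have h : min (m * ρ / 4) (min (ρ ^ 2 / (24 * d)) (Real.sin η2 * d / 4)) ≤ ρ ^ 2 / (24 * d) :=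
      le_trans (min_le_right _ _) (min_le_left _ _)
    calc _ ≤ ρ ^ 2 / (24 * d) * (3 * d) := mul_le_mul_of_nonneg_right h (by positivity)
      _ = ρ ^ 2 / 8 := by field_simp; norm_num
  have hsd : Real.sin η2 * d ≤ d := by nlinarith only [hd, s2']
  have hsd0 : 0 < Real.sin η2 * d := by positivity
  have hwd : w ≤ d / 4 := by linarith only [hw3, hsd]
  refine ⟨w, w / (2 * (8 + 2 * K)), hw0, by positivity, fun δ hδ hδ' => ?_⟩
  have hδK : (8 + 2 * K) * δ < w / 2 := by
    rw [lt_div_iff₀ (by positivity)] at hδ'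
    linarith only [hδ']
  have hδK' : 8 * δ + 2 * (K * δ) < w / 2 := by
    have e1 : (8 + 2 * K) * δ = 8 * δ + 2 * (K * δ) := by ring
    linarith only [hδK]
  have hKδ : 0 < K * δ := mul_pos hK0 hδ
  intro n _ x A hn
  refine ⟨?_, ?_, ?_⟩
  · intro hV hC hSh hL
    set b : Fin n → ℝ := fun j => bl (us η1 η2) (hh d) (A j) (x j) (x (j + 1)) with hbdef
    have hnb : ∀ j, ‖x j - x (j + 1)‖ ≤ b j := fun j => norm_le_bl _ _ (norm_us η1 η2) _ _ _
    have hbδ : ∀ j, b j < δ := hSh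
    have hLn : ∑ j, b j < 2 * d + w := hL
    have hv0 : ∀ j, 0 ∈ A j → d - δ < (x j).re ∧ d - δ < (x (j + 1)).re := by
      intro j hj
      have h := vis_le (us η1 η2) (hh d) (norm_us η1 η2) (A j) 0 hj (x j) (x (j + 1))
      rw [ip_us0, ip_us0, hh0] at h
      have h5 := hbδ j
      simp only [hbdef] at h5
      constructor <;> linarith only [h5, h.1, h.2]
    have hv1 : ∀ j, 1 ∈ A j → -δ < ip (us η1 η2 1) (x j) ∧ -δ < ip (us η1 η2 1) (x (j + 1)) := by
      intro j hj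
      have h := vis_le (us η1 η2) (hh d) (norm_us η1 η2) (A j) 1 hj (x j) (x (j + 1))
      rw [hh1] at h
      have h5 := hbδ j
      simp only [hbdef] at h5
      constructor <;> linarith only [h5, h.1, h.2]
    have hn2 : ∀ j, 2 ∉ A j := fun j hj => by
      have := hV.2 j
      rw [Finset.disjoint_singleton_right] at this
      exact this hj
    have hi2 : ∀ j, ip (us η1 η2 2) (x j) < 0 ∧ ip (us η1 η2 2) (x (j + 1)) < 0 := by
      intro j
      have := hC j 2 (hn2 j)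
      rwa [hh2] at this
    have hr1 : ∀ j, 1 ∈ A j → (x j).re < K * δ ∧ (x (j + 1)).re < K * δ := fun j hj =>
      ⟨re_small c1 c2 hS0 hδ _ (hv1 j hj).1 (hi2 j).1, re_small c1 c2 hS0 hδ _ (hv1 j hj).2 (hi2 j).2⟩
    obtain ⟨k1, hk1⟩ := hV.1 1 (by simp)
    refine ⟨⟨?_, ?_⟩, ?_, ?_⟩
    · intro j hj
      have := hv0 j hj
      constructor <;> linarith only [hδ, this.1, this.2]
    · intro j s hs hj
      simp only [Finset.mem_singleton] at hs
      subst hs
      have := hr1 j hj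
      constructor <;> linarith only [hw3, hsd, hδ, hδK, hKδ, this.1, this.2]
    · intro j a b' c s s' h0a hab hbc hcn hs hs' hO hj0 hja hjb hjc
      simp only [Finset.mem_singleton] at hs hs'
      subst hs
      subst hs'
      have h4 := cyc4 x b hnb j a b' c hab.le hbc.le hcn.le
      have hX := (hv0 j hj0).1
      have hX' := (hv0 _ hjb).1
      have hP := (hr1 _ hja).1
      have hP' := (hr1 _ hjc).1
      have d1 := Complex.re_le_norm (x j - x (j + Fin.ofNat n a))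
      have d2 := Complex.re_le_norm (x (j + Fin.ofNat n b') - x (j + Fin.ofNat n a))
      have d3 := Complex.re_le_norm (x (j + Fin.ofNat n b') - x (j + Fin.ofNat n c))
      have d4 := Complex.re_le_norm (x j - x (j + Fin.ofNat n c))
      rw [Complex.sub_re] at d1 d2 d3 d4
      rw [norm_sub_rev (x (j + Fin.ofNat n a)) (x (j + Fin.ofNat n b')),
        norm_sub_rev (x (j + Fin.ofNat n c)) (x j)] at h4
      linarith only [hw3, hsd, hδ, hδK, hKδ, hLn, h4, hX, hX', hP, hP', d1, d2, d3, d4]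
    · intro hch
      have h01 := hnb 0
      rw [zero_add] at h01
      have h02 := hbδ 0
      have h03 : |(x 0).re - (x 1).re| < δ := by
        have h := Complex.abs_re_le_norm (x 0 - x 1)
        rw [Complex.sub_re] at h
        linarith
      rw [abs_lt] at h03
      have h04 : |(x 0).re - (d - 2 * δ)| < δ ∧ |(x 1).re - (d - 2 * δ)| < δ := by
        unfold ch at hch
        rw [abs_lt, abs_lt]
        split_ifs at hch with g1 g2 g2
        · exact absurd rfl hch
        · push Not at g2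
          refine ⟨⟨?_, ?_⟩, ⟨?_, ?_⟩⟩ <;> linarith only [g1, g2, h03.1, h03.2]
        · push Not at g1
          refine ⟨⟨?_, ?_⟩, ⟨?_, ?_⟩⟩ <;> linarith [h03.1, h03.2]
        · exact absurd rfl hch
      have key : ∀ j, |(x j).re - (d - 2 * δ)| < δ → x j ∈ Rw (d - 2 * δ) δ ρ ρ := by
        intro j hj
        have hj' := abs_lt.1 hj
        have h2 := cyc2 x b hnb j k1
        have h3 : |(x j).im| < ρ :=
          window (w := w) (K := K) (m := m) (e := w) hd hm1 hm hm2 hδ hρ hw0 hK0 s1 s2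
            (by have e1 : (3 + K) * δ = 3 * δ + K * δ := by ring
                linarith only [hδ, hδK, hKδ])
            hw1 hw2 (by linarith) (by linarith) (x j) (x k1) (by linarith [hj'.1]) (hr1 k1 hk1).1
            (hv1 k1 hk1).1 (hi2 k1).1 (by linarith)
        rw [abs_lt] at h3
        exact ⟨hj, h3.1, h3.2⟩
      exact ⟨key 0 h04.1, key 1 h04.2⟩
  · rintro ⟨k, hk, hO, hdis, l, -, hlk, hl⟩ hC hSh hx0 hx1
    set b : Fin n → ℝ := fun j => bl (us η1 η2) (hh d) (A j) (x j) (x (j + 1)) with hbdef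
    have hnb : ∀ j, ‖x j - x (j + 1)‖ ≤ b j := fun j => norm_le_bl _ _ (norm_us η1 η2) _ _ _
    have hbδ : ∀ j, b j < δ := hSh
    obtain ⟨l1, hkl1, hl1n, hl1⟩ := hO 1 (by simp)
    have hd2 := hdis l1 hkl1 hl1n
    rw [Finset.disjoint_singleton_right] at hd2
    rw [Finset.disjoint_singleton_right, not_not] at hl
    have hE := (vis_le (us η1 η2) (hh d) (norm_us η1 η2) (A (Fin.ofNat n l)) 2 hl
      (x (Fin.ofNat n l)) (x (Fin.ofNat n l + 1))).1
    have hP := (vis_le (us η1 η2) (hh d) (norm_us η1 η2) (A (Fin.ofNat n l1)) 1 hl1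
      (x (Fin.ofNat n l1)) (x (Fin.ofNat n l1 + 1))).1
    have hQ := (vis_le (us η1 η2) (hh d) (norm_us η1 η2) (A (Fin.ofNat n k)) 0 hk.2.2.1
      (x (Fin.ofNat n k)) (x (Fin.ofNat n k + 1))).1
    have hP2 := (hC (Fin.ofNat n l1) 2 hd2).1
    have b1 := hbδ (Fin.ofNat n l)
    have b2 := hbδ (Fin.ofNat n l1)
    have b3 := hbδ (Fin.ofNat n k)
    simp only [hbdef] at b1 b2 b3
    rw [hh2] at hE hP2
    rw [hh1] at hP
    rw [hh0, ip_us0] at hQ
    have hPr := re_small (η1 := η1) c1 c2 hS0 hδ _ (by linarith) hP2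
    have hx0' := abs_lt.1 hx0.1
    have hf := foot_far (d := d) (δ := δ) (ρ := ρ) s2 c2 hδ (x 0) (x (Fin.ofNat n l))
      (by linarith [hx0'.1]) hx0.2.1 hρ (show -δ < ip (us η1 η2 2) _ by linarith)
    have h4 := cyc4 x b hnb 0 l k l1 hlk hkl1.le hl1n.le
    simp only [zero_add] at h4
    have d1 := Complex.re_le_norm (x (Fin.ofNat n k) - x (Fin.ofNat n l1))
    have d2 := Complex.re_le_norm (x 0 - x (Fin.ofNat n l1))
    rw [Complex.sub_re] at d1 d2
    rw [norm_sub_rev (x (Fin.ofNat n l1)) (x 0)] at h4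
    have d3 := norm_nonneg (x (Fin.ofNat n l) - x (Fin.ofNat n k))
    have h5 : Ln (us η1 η2) (hh d) x A = ∑ i, b i := rfl
    rw [h5]
    rw [← hK] at hPr
    linarith only [hρ', hw3, hδK, hKδ, hQ, b3, hPr, hx0', hf, h4, d1, d2, d3, hx0'.1]
  · intro hA0 hB hC hSh hx0 hx1
    have hN := norm_uc η1 η2
    have hx1' := abs_lt.1 hx1.1
    have hx0' := abs_lt.1 hx0.1
    have hre : (x 1).re < d := by linarith [hx1'.2]
    rcases hB with ⟨k, hk, hO, hdis, l, h1l, hlk, hl⟩ | ⟨k, hk, -, hdis, s, hs, l, hl0, hlk, hsl⟩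
    · obtain ⟨l1, hkl1, hl1n, hl1⟩ := hO 1 (by simp)
      have hd2 := hdis l1 hkl1 hl1n
      rw [Finset.disjoint_singleton_right] at hd2
      rw [Finset.disjoint_singleton_right, not_not] at hl
      have hE := (vis_Yt hn _ _ x A hN hSh h1l (by have := hk.2.1; omega) hl).1
      have hP := (vis_Yt hn _ _ x A hN hSh (by omega : 1 ≤ l1) hl1n hl1).1
      have hP2 := (inside_Yt hn _ _ x A hC (by omega : 1 ≤ l1) hl1n hd2).1
      have hQ := re_Yt hn η1 η2 d x A hC hre hk (by omega : 1 ≤ k) le_rfl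
      rw [hc2, uc2] at hE hP2
      rw [hc1, uc1] at hP
      have hPr := re_small (η1 := η1) c1 c2 hS0 hδ _ (by linarith only [hP]) hP2
      have hE' : -δ < ip (us η1 η2 2) (Yt (us η1 η2) (hh d) x l) := by linarith only [hE]
      have hR1 : d - 3 * δ < (rf (us η1 η2) (hh d) 0 (x 1)).re := by
        rw [rf_re]; linarith only [hx1']
      have hR2 : -ρ < (rf (us η1 η2) (hh d) 0 (x 1)).im := by
        rw [rf_im]; exact hx1.2.1
      have hf := foot_far (η1 := η1) (d := d) (δ := δ) (ρ := ρ) s2 c2 hδ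
        (rf (us η1 η2) (hh d) 0 (x 1)) (Yt (us η1 η2) (hh d) x l) hR1 hR2 hρ hE'
      have h4 := Lt_ge hn (us η1 η2) (hh d) x A hN h1l hlk hkl1.le hl1n.le
      have d1 := Complex.re_le_norm (Yt (us η1 η2) (hh d) x k - Yt (us η1 η2) (hh d) x l1)
      have d2 := Complex.re_le_norm (x 0 - Yt (us η1 η2) (hh d) x l1)
      rw [Complex.sub_re] at d1 d2
      rw [norm_sub_rev (Yt (us η1 η2) (hh d) x l1) (x 0)] at h4
      have d3 := norm_nonneg (Yt (us η1 η2) (hh d) x l - Yt (us η1 η2) (hh d) x k)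
      have d4 := norm_nonneg (x 0 - x 1)
      rw [← hK] at hPr
      linarith only [hρ', hw3, hδK, hKδ, hx0', hQ, hPr, hf, h4, d1, d2, d3, d4, hx0'.1]
    · exfalso
      simp only [Finset.mem_singleton] at hs
      subst hs
      have hln : l < n := by have := hk.2.1; omega
      have hd2 := hdis l hl0 hln
      rw [Finset.disjoint_singleton_right] at hd2
      have hP := (vis_Yt hn _ _ x A hN hSh (by omega : 1 ≤ l) hln hsl).1
      have hP2 := (inside_Yt hn _ _ x A hC (by omega : 1 ≤ l) hln hd2).1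
      have hQ := re_Yt hn η1 η2 d x A hC hre hk (by omega : 1 ≤ l) hlk
      rw [hc2, uc2] at hP2
      rw [hc1, uc1] at hP
      have hPr := re_small (η1 := η1) c1 c2 hS0 hδ _ (by linarith only [hP]) hP2
      rw [← hK] at hPr
      linarith only [hw3, hsd, hδ, hδK, hKδ, hQ, hPr]

end Pool.Agent.H60K.H69
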