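import Pool.Agent.Helper69_AEU3.Geo

/-!
AEU Part III, module B:GES (helper69): geometry of the blocks in the spanning case.
-/

namespace Pool.Agent.H60K.H69

open MeasureTheory Complex Filter Topology ProbabilityTheory Pool.Agent.H16Iso Pool.Agent.H62T
  Pool.Agent.H16F Pool.Agent.H38KL Pool.Agent.H60K

theorem hb_mul1 {η1 η2 d : ℝ} (h1 : 0 < Real.cos η1) :
    hb η1 η2 d * Real.cos η1 ≤ d * Real.sin (η1 + η2) := by
  have h : hb η1 η2 d ≤ d / Real.cos η1 * Real.sin (η1 + η2) := min_le_left _ _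
  calc hb η1 η2 d * Real.cos η1 ≤ (d / Real.cos η1 * Real.sin (η1 + η2)) * Real.cos η1 :=
        mul_le_mul_of_nonneg_right h h1.le
    _ = d * Real.sin (η1 + η2) := by field_simp

theorem hb_mul2 {η1 η2 d : ℝ} (h2 : 0 < Real.cos η2) :
    hb η1 η2 d * Real.cos η2 ≤ d * Real.sin (η1 + η2) := by
  have h : hb η1 η2 d ≤ d / Real.cos η2 * Real.sin (η1 + η2) := min_le_right _ _
  calc hb η1 η2 d * Real.cos η2 ≤ (d / Real.cos η2 * Real.sin (η1 + η2)) * Real.cos η2 :=
        mul_le_mul_of_nonneg_right h h2.le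
    _ = d * Real.sin (η1 + η2) := by field_simp

/-- the sum of the distances to the two sides through the vertex -/
theorem hb_mix {η1 η2 d a b t m : ℝ} (h1 : 0 < Real.cos η1) (h2 : 0 < Real.cos η2)
    (hm : 0 < m) (hm1 : m ≤ Real.cos η1) (hm2 : m ≤ Real.cos η2)
    (ha : 0 ≤ a) (hb' : 0 ≤ b) (ht : 0 ≤ t)
    (h : d * Real.sin (η1 + η2) - t ≤ Real.cos η1 * b + Real.cos η2 * a) :
    hb η1 η2 d - t / m ≤ a + b := by
  rcases le_total (Real.cos η1) (Real.cos η2) with hc | hc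
  · have h3 := hb_mul2 (η1 := η1) (d := d) h2
    have h4 : Real.cos η2 * (hb η1 η2 d) - t ≤ Real.cos η2 * (a + b) := by
      nlinarith only [h, h3, hb', hc]
    have h5 : t ≤ Real.cos η2 * (t / m) := by
      rw [mul_div_assoc']
      rw [le_div_iff₀ hm]
      nlinarith only [hm2, ht]
    have h6 : Real.cos η2 * (hb η1 η2 d - t / m) ≤ Real.cos η2 * (a + b) := by
      rw [mul_sub]; linarith
    exact le_of_mul_le_mul_left h6 h2
  · have h3 := hb_mul1 (η2 := η2) (d := d) h1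
    have h4 : Real.cos η1 * (hb η1 η2 d) - t ≤ Real.cos η1 * (a + b) := by
      nlinarith
    have h5 : t ≤ Real.cos η1 * (t / m) := by
      rw [mul_div_assoc']
      rw [le_div_iff₀ hm]
      nlinarith
    have h6 : Real.cos η1 * (hb η1 η2 d - t / m) ≤ Real.cos η1 * (a + b) := by
      rw [mul_sub]; linarith
    exact le_of_mul_le_mul_left h6 h1

theorem cancel_div {c m t a b : ℝ} (hm : 0 < m) (hmc : m ≤ c) (ht : 0 ≤ t)
    (h : c * a - t ≤ c * b) : a - t / m ≤ b := by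
  have hc : 0 < c := lt_of_lt_of_le hm hmc
  have h5 : t ≤ c * (t / m) := by
    rw [mul_div_assoc', le_div_iff₀ hm]
    nlinarith
  have h6 : c * (a - t / m) ≤ c * b := by
    rw [mul_sub]; linarith
  exact le_of_mul_le_mul_left h6 hc

/-- a point near lines `0` and `1` is far from line `2` -/
theorem far2 {η1 η2 d δ m : ℝ} (h2 : 0 < Real.cos η2) (hm : 0 < m)
    (hm1 : m ≤ Real.cos η1) (hS0 : 0 < Real.sin (η1 + η2)) (hδ : 0 < δ) (x : ℂ)
    (hx0 : d - 2 * δ ≤ x.re) (hx1 : -δ ≤ ip (us η1 η2 1) x) :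
    hb η1 η2 d - 3 * δ / m ≤ -ip (us η1 η2 2) x := by
  have h1 : 0 < Real.cos η1 := lt_of_lt_of_le hm hm1
  have h3 := hb_mul1 (η2 := η2) (d := d) h1
  have h4 := rel η1 η2 x
  have hS : Real.sin (η1 + η2) ≤ 1 := Real.sin_le_one _
  have hc2 : Real.cos η2 ≤ 1 := Real.cos_le_one _
  refine cancel_div hm hm1 (by positivity) ?_
  nlinarith only [h3, h4, h2, hx1, hS0, hx0, hδ, hS, hc2]

/-- a point near lines `0` and `2` is far from line `1` -/
theorem far1 {η1 η2 d δ m : ℝ} (h1 : 0 < Real.cos η1) (hm : 0 < m)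
    (hm2 : m ≤ Real.cos η2) (hS0 : 0 < Real.sin (η1 + η2)) (hδ : 0 < δ) (x : ℂ)
    (hx0 : d - 2 * δ ≤ x.re) (hx1 : -δ ≤ ip (us η1 η2 2) x) :
    hb η1 η2 d - 3 * δ / m ≤ -ip (us η1 η2 1) x := by
  have h2 : 0 < Real.cos η2 := lt_of_lt_of_le hm hm2
  have h3 := hb_mul2 (η1 := η1) (d := d) h2
  have h4 := rel η1 η2 x
  have hS : Real.sin (η1 + η2) ≤ 1 := Real.sin_le_one _
  have hc2 : Real.cos η1 ≤ 1 := Real.cos_le_one _
  refine cancel_div hm hm2 (by positivity) ?_
  nlinarith only [h3, h4, h1, hx1, hS0, hx0, hδ, hS, hc2]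

/-- a point close to the first end of the window -/
theorem end2 {η1 η2 d δ ρ : ℝ} (h1 : 0 < Real.cos η1) (h2 : 0 < Real.cos η2)
    (hs2 : 0 < Real.sin η2) (hδ : 0 < δ) (hρ : 0 < ρ) (x : ℂ)
    (hx0 : d - 3 * δ ≤ x.re) (hx1 : d * Real.tan η1 - ρ ≤ x.im) :
    hb η1 η2 d - 3 * δ - ρ ≤ -ip (us η1 η2 2) x := by
  have h3 : hb η1 η2 d ≤ d / Real.cos η1 * Real.sin (η1 + η2) := min_le_left _ _
  have h4 : d / Real.cos η1 * Real.sin (η1 + η2)
      = Real.sin η2 * d + Real.cos η2 * (d * Real.tan η1) := by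
    rw [Real.sin_add, Real.tan_eq_sin_div_cos]
    field_simp
    ring
  rw [ip_us2]
  have hs : Real.sin η2 ≤ 1 := Real.sin_le_one _
  have hc : Real.cos η2 ≤ 1 := Real.cos_le_one _
  nlinarith

/-- a point close to the second end of the window -/
theorem end1 {η1 η2 d δ ρ : ℝ} (h1 : 0 < Real.cos η1) (h2 : 0 < Real.cos η2)
    (hs1 : 0 < Real.sin η1) (hδ : 0 < δ) (hρ : 0 < ρ) (x : ℂ)
    (hx0 : d - 3 * δ ≤ x.re) (hx1 : x.im ≤ -(d * Real.tan η2 - ρ)) :
    hb η1 η2 d - 3 * δ - ρ ≤ -ip (us η1 η2 1) x := by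
  have h3 : hb η1 η2 d ≤ d / Real.cos η2 * Real.sin (η1 + η2) := min_le_right _ _
  have h4 : d / Real.cos η2 * Real.sin (η1 + η2)
      = Real.sin η1 * d + Real.cos η1 * (d * Real.tan η2) := by
    rw [Real.sin_add, Real.tan_eq_sin_div_cos]
    field_simp
  rw [ip_us1]
  have hs : Real.sin η1 ≤ 1 := Real.sin_le_one _
  have hc : Real.cos η1 ≤ 1 := Real.cos_le_one _
  nlinarith only [h3, h4, h1, hx1, hs1, hx0, hδ, hs, hρ, hc]

/-- the two-step distance through two sides -/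
theorem twostep {η1 η2 d δ m : ℝ} (hm : 0 < m) (hm1 : m ≤ Real.cos η1) (hm2 : m ≤ Real.cos η2)
    (hS0 : 0 < Real.sin (η1 + η2)) (hδ : 0 < δ) (X P Q : ℂ) (hX : d - δ ≤ X.re)
    (hP : -δ ≤ ip (us η1 η2 1) P) (hQ : -δ ≤ ip (us η1 η2 2) Q) :
    hb η1 η2 d - 3 * δ / m ≤ ‖X - P‖ + ‖X - Q‖ := by
  have h1 : 0 < Real.cos η1 := lt_of_lt_of_le hm hm1
  have h2 : 0 < Real.cos η2 := lt_of_lt_of_le hm hm2
  have h4 := rel η1 η2 X
  have h5 := ip_diff_le (norm_us η1 η2 1) P X
  have h6 := ip_diff_le (norm_us η1 η2 2) Q X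
  rw [norm_sub_rev] at h5 h6
  have hS : Real.sin (η1 + η2) ≤ 1 := Real.sin_le_one _
  have hc1 : Real.cos η1 ≤ 1 := Real.cos_le_one _
  have hc2 : Real.cos η2 ≤ 1 := Real.cos_le_one _
  refine hb_mix h1 h2 hm hm1 hm2 (norm_nonneg _) (norm_nonneg _) (by positivity) ?_
  nlinarith only [h4, hm, hP, hQ, h5, h6, hm1, hm2, hS0, hX, hδ, hS, hc1, hc2]

theorem ges : GesStatement := by
  intro η1 η2 d ε hη1 hη1' hη2 hη2' hd hε
  have c1 : 0 < Real.cos η1 := Real.cos_pos_of_mem_Ioo ⟨by linarith, hη1'⟩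
  have c2 : 0 < Real.cos η2 := Real.cos_pos_of_mem_Ioo ⟨by linarith, hη2'⟩
  have s1 : 0 < Real.sin η1 := Real.sin_pos_of_pos_of_lt_pi hη1 (by linarith)
  have s2 : 0 < Real.sin η2 := Real.sin_pos_of_pos_of_lt_pi hη2 (by linarith)
  have hS0 : 0 < Real.sin (η1 + η2) := Real.sin_pos_of_pos_of_lt_pi (by linarith) (by linarith)
  obtain ⟨m, hm, hm1, hm2, hm3⟩ : ∃ m : ℝ, 0 < m ∧ m ≤ Real.cos η1 ∧ m ≤ Real.cos η2 ∧ m ≤ 1 :=
    ⟨min (Real.cos η1) (Real.cos η2), lt_min c1 c2, min_le_left _ _, min_le_right _ _,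
      le_trans (min_le_left _ _) (Real.cos_le_one _)⟩
  refine ⟨ε / 8, by positivity, fun ρ hρ hρ' => ⟨ε * m / 100, by positivity, fun δ hδ hδ' => ?_⟩⟩
  have hδm : δ / m < ε / 100 := by
    rw [div_lt_iff₀ hm]; linarith
  have hδ1 : δ < ε / 100 := by
    have : ε * m ≤ ε := by nlinarith only [hε, hm3]
    linarith
  have h3m : 3 * δ / m = 3 * (δ / m) := by ring
  intro n _ x A hn
  refine ⟨?_, ?_⟩
  · intro hV hC hSh hL
    set b : Fin n → ℝ := fun j => bl (us η1 η2) (hh d) (A j) (x j) (x (j + 1)) with hbdef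
    have hnb : ∀ j, ‖x j - x (j + 1)‖ ≤ b j := fun j => norm_le_bl _ _ (norm_us η1 η2) _ _ _
    have hbδ : ∀ j, b j < δ := hSh
    have hLn : ∑ j, b j < 2 * hb η1 η2 d - ε := hL
    -- visits
    have hv0 : ∀ j, 0 ∈ A j → d - δ < (x j).re ∧ d - δ < (x (j + 1)).re := by
      intro j hj
      have h := vis_le (us η1 η2) (hh d) (norm_us η1 η2) (A j) 0 hj (x j) (x (j + 1))
      rw [ip_us0, ip_us0, hh0] at h
      have h5 := hbδ j
      simp only [hbdef] at h5
      constructor <;> linarith only [h5, h.1, h.2]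
    have hv1 : ∀ j, 1 ∈ A j → -δ < ip (us η1 η2 1) (x j) ∧ -δ < ip (us η1 η2 1) (x (j + 1)) := by
      intro j hj
      have h := vis_le (us η1 η2) (hh d) (norm_us η1 η2) (A j) 1 hj (x j) (x (j + 1))
      rw [hh1] at h
      have h5 := hbδ j
      simp only [hbdef] at h5
      constructor <;> linarith only [h5, h.1, h.2]
    have hv2 : ∀ j, 2 ∈ A j → -δ < ip (us η1 η2 2) (x j) ∧ -δ < ip (us η1 η2 2) (x (j + 1)) := by
      intro j hj
      have h := vis_le (us η1 η2) (hh d) (norm_us η1 η2) (A j) 2 hj (x j) (x (j + 1))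
      rw [hh2] at h
      have h5 := hbδ j
      simp only [hbdef] at h5
      constructor <;> linarith only [h5, h.1, h.2]
    obtain ⟨k1, hk1⟩ := hV.1 1 (by simp)
    obtain ⟨k2, hk2⟩ := hV.1 2 (by simp)
    -- no point is far from line `1` or `2`
    have hf1 : ∀ j, -ip (us η1 η2 1) (x j) < hb η1 η2 d - ε / 2 + δ := by
      intro j
      have h1 := cyc2 x b hnb k1 j
      have h2 := ip_diff_le (norm_us η1 η2 1) (x k1) (x j)
      have h3 := (hv1 k1 hk1).1
      linarith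
    have hf2 : ∀ j, -ip (us η1 η2 2) (x j) < hb η1 η2 d - ε / 2 + δ := by
      intro j
      have h1 := cyc2 x b hnb k2 j
      have h2 := ip_diff_le (norm_us η1 η2 2) (x k2) (x j)
      have h3 := (hv2 k2 hk2).1
      linarith
    refine ⟨⟨?_, ?_⟩, ?_, ?_⟩
    · intro j hj
      have := hv0 j hj
      constructor <;> linarith [this.1, this.2]
    · intro j s hs hj
      simp only [Finset.mem_insert, Finset.mem_singleton] at hs
      rcases hs with rfl | rfl
      · have h := hv1 j hj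
        constructor
        · by_contra hcon
          have h5 := far2 c2 hm hm1 hS0 hδ (x j) (not_lt.1 hcon) h.1.le
          have h6 := hf2 j
          rw [h3m] at h5
          linarith
        · by_contra hcon
          have h5 := far2 c2 hm hm1 hS0 hδ (x (j + 1)) (not_lt.1 hcon) h.2.le
          have h6 := hf2 (j + 1)
          rw [h3m] at h5
          linarith
      · have h := hv2 j hj
        constructor
        · by_contra hcon
          have h5 := far1 c1 hm hm2 hS0 hδ (x j) (not_lt.1 hcon) h.1.le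
          have h6 := hf1 j
          rw [h3m] at h5
          linarith
        · by_contra hcon
          have h5 := far1 c1 hm hm2 hS0 hδ (x (j + 1)) (not_lt.1 hcon) h.2.le
          have h6 := hf1 (j + 1)
          rw [h3m] at h5
          linarith
    · intro j a b' c s s' h0a hab hbc hcn hs hs' hO hj0 hja hjb hjc
      have h4 := cyc4 x b hnb j a b' c hab.le hbc.le hcn.le
      have hX := hv0 j hj0
      have hX' := hv0 _ hjb
      have hss : (s = 1 ∧ s' = 2) ∨ (s = 2 ∧ s' = 1) := by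
        have e1 := hO (show (1 : Fin 3) ∈ ({1, 2} : Finset (Fin 3)) by simp)
        have e2 := hO (show (2 : Fin 3) ∈ ({1, 2} : Finset (Fin 3)) by simp)
        simp only [Finset.mem_insert, Finset.mem_singleton] at e1 e2 hs hs'
        rcases hs with rfl | rfl <;> rcases hs' with rfl | rfl
        · simp at e2
        · left; exact ⟨rfl, rfl⟩
        · right; exact ⟨rfl, rfl⟩
        · simp at e1
      rcases hss with ⟨rfl, rfl⟩ | ⟨rfl, rfl⟩
      · have h5 := twostep hm hm1 hm2 hS0 hδ (x j) _ _ hX.1.le (hv1 _ hja).1.le (hv2 _ hjc).1.le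
        have h6 := twostep hm hm1 hm2 hS0 hδ _ _ _ hX'.1.le (hv1 _ hja).1.le (hv2 _ hjc).1.le
        rw [h3m] at h5 h6
        rw [norm_sub_rev (x (j + Fin.ofNat n a)) (x (j + Fin.ofNat n b')),
          norm_sub_rev (x (j + Fin.ofNat n c)) (x j)] at h4
        linarith only [hδ, hδm, hδ1, hLn, h4, h5, h6]
      · have h5 := twostep hm hm1 hm2 hS0 hδ (x j) _ _ hX.1.le (hv1 _ hjc).1.le (hv2 _ hja).1.le
        have h6 := twostep hm hm1 hm2 hS0 hδ _ _ _ hX'.1.le (hv1 _ hjc).1.le (hv2 _ hja).1.le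
        rw [h3m] at h5 h6
        rw [norm_sub_rev (x (j + Fin.ofNat n a)) (x (j + Fin.ofNat n b')),
          norm_sub_rev (x (j + Fin.ofNat n c)) (x j)] at h4
        linarith only [hδ, hδm, hδ1, hLn, h4, h5, h6]
    · intro hch
      have h01 := hnb 0
      rw [zero_add] at h01
      have h02 := hbδ 0
      have h03 : |(x 0).re - (x 1).re| < δ := by
        have h := Complex.abs_re_le_norm (x 0 - x 1)
        rw [Complex.sub_re] at h
        linarith only [h01, h02, h]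
      rw [abs_lt] at h03
      have h04 : |(x 0).re - (d - 2 * δ)| < δ ∧ |(x 1).re - (d - 2 * δ)| < δ := by
        unfold ch at hch
        rw [abs_lt, abs_lt]
        split_ifs at hch with g1 g2 g2
        · exact absurd rfl hch
        · push Not at g2
          refine ⟨⟨?_, ?_⟩, ⟨?_, ?_⟩⟩ <;> linarith only [g1, g2, h03.1, h03.2]
        · push Not at g1
          refine ⟨⟨?_, ?_⟩, ⟨?_, ?_⟩⟩ <;> linarith [h03.1, h03.2]
        · exact absurd rfl hch
      have key : ∀ j, |(x j).re - (d - 2 * δ)| < δ →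
          x j ∈ Rw (d - 2 * δ) δ (d * Real.tan η1 - ρ) (d * Real.tan η2 - ρ) := by
        intro j hj
        have hj' := abs_lt.1 hj
        refine ⟨hj, ?_, ?_⟩
        · by_contra hcon
          have h5 := end1 c1 c2 s1 hδ hρ (x j) (by linarith [hj'.1]) (not_lt.1 hcon)
          have h6 := hf1 j
          linarith
        · by_contra hcon
          have h5 := end2 c1 c2 s2 hδ hρ (x j) (by linarith [hj'.1]) (not_lt.1 hcon)
          have h6 := hf2 j
          linarith
      exact ⟨key 0 h04.1, key 1 h04.2⟩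
  · intro hA0 hB hC hSh hx1
    obtain ⟨k, hk, hO, -, s, hs, l, hl0, hlk, hsl⟩ := hB
    have hkn := hk.2.1
    have hx1' := abs_lt.1 hx1.1
    have hre : (x 1).re < d := by linarith [hx1'.2]
    have hrf := norm_rf_sub η1 η2 d (x 1) hre.le
    have hYl := re_Yt hn η1 η2 d x A hC hre hk (by omega : 1 ≤ l) hlk
    have hN := norm_uc η1 η2
    simp only [Finset.mem_insert, Finset.mem_singleton] at hs
    rcases hs with rfl | rfl
    · obtain ⟨l', hl'0, hl'n, hl'⟩ := hO 2 (by simp)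
      have h1 := (vis_Yt hn _ _ x A hN hSh (by omega : 1 ≤ l) (by omega) hsl).1
      have h2 := (vis_Yt hn _ _ x A hN hSh (by omega : 1 ≤ l') (by omega) hl').1
      rw [hc1, uc1] at h1
      rw [hc2, uc2] at h2
      have h3 := far2 (d := d) c2 hm hm1 hS0 hδ (Yt (us η1 η2) (hh d) x l) (by linarith)
        (by linarith)
      have h4 := ip_diff_le (norm_us η1 η2 2) (Yt (us η1 η2) (hh d) x l')
        (Yt (us η1 η2) (hh d) x l)
      have h5 := Lt_two hn (us η1 η2) (hh d) x A hN (by omega : 1 ≤ l') (by omega : 1 ≤ l)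
        (by omega) (by omega)
      rw [h3m] at h3
      linarith only [hδm, hδ1, hx1', hrf, h2, h3, h4, h5, hx1'.1]
    · obtain ⟨l', hl'0, hl'n, hl'⟩ := hO 1 (by simp)
      have h1 := (vis_Yt hn _ _ x A hN hSh (by omega : 1 ≤ l) (by omega) hsl).1
      have h2 := (vis_Yt hn _ _ x A hN hSh (by omega : 1 ≤ l') (by omega) hl').1
      rw [hc2, uc2] at h1
      rw [hc1, uc1] at h2
      have h3 := far1 (d := d) c1 hm hm2 hS0 hδ (Yt (us η1 η2) (hh d) x l) (by linarith)
        (by linarith)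
      have h4 := ip_diff_le (norm_us η1 η2 1) (Yt (us η1 η2) (hh d) x l')
        (Yt (us η1 η2) (hh d) x l)
      have h5 := Lt_two hn (us η1 η2) (hh d) x A hN (by omega : 1 ≤ l') (by omega : 1 ≤ l)
        (by omega) (by omega)
      rw [h3m] at h3
      linarith [hx1'.1]

end Pool.Agent.H60K.H69
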