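import Pool.Agent.Helper69_AEU3.Geo

/-!
AEU Part III, module B:LOC (helper69): loops which visit the lines in question are not short and not
far away.
-/

namespace Pool.Agent.H60K.H69

open MeasureTheory Complex Filter Topology ProbabilityTheory Pool.Agent.H16Iso Pool.Agent.H62T
  Pool.Agent.H16F Pool.Agent.H38KL Pool.Agent.H60K

/-- a point with the right linear bounds is bounded -/
theorem loc_core {S m d L R : ℝ} (hS : 0 < S) (hS1 : S ≤ 1) (hm : 0 < m) (hd : 0 < d)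
    (hL : 0 ≤ L) (hR : R = 4 / S + (2 + 4 / S) / m + 6 / (S * d)) (x : ℂ)
    (h1 : S * x.re ≤ 4 * L) (h2 : d - 2 * L ≤ x.re) (h3 : m * |x.im| ≤ 2 * L + |x.re|) :
    ‖x‖ ≤ R * (1 + L) ∧ 1 / R ≤ L := by
  have h4 : |x.re| ≤ 4 / S * L := by
    have e : 4 / S * L = 4 * L / S := by ring
    rw [e, le_div_iff₀ hS]
    rcases abs_cases x.re with ⟨h, _⟩ | ⟨h, h'⟩
    · rw [h]; linarith
    · rw [h]
      nlinarith only [hd, h2, hS, hS1, hL]
  have h5 : |x.im| ≤ (2 + 4 / S) / m * L := by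
    have e : (2 + 4 / S) / m * L = (2 * L + 4 / S * L) / m := by ring
    rw [e, le_div_iff₀ hm]
    linarith
  have hSd : 0 < 6 / (S * d) := by positivity
  have h6 : 0 < 4 / S := by positivity
  have h7 : 0 < (2 + 4 / S) / m := by positivity
  have hR0 : 0 < R := by rw [hR]; positivity
  constructor
  · refine le_trans (Complex.norm_le_abs_re_add_abs_im x) ?_
    have h8 : R * L = 4 / S * L + (2 + 4 / S) / m * L + 6 / (S * d) * L := by rw [hR]; ring
    have h9 : 0 ≤ 6 / (S * d) * L := by positivity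
    linarith only [hR, h4, h5, hSd, h6, h7, h8, h9]
  · have h8 : S * d / 6 ≤ L := by nlinarith only [h1, hS, h2, hS1, hL]
    have h9 : 1 / R ≤ S * d / 6 := by
      rw [div_le_div_iff₀ hR0 (by norm_num)]
      have h10 : 6 / (S * d) ≤ R := by rw [hR]; linarith
      rw [div_le_iff₀ (by positivity)] at h10
      linarith
    linarith

theorem loc : LocStatement := by
  intro η1 η2 d hη1 hη2 hsum hd
  have hpi := Real.pi_pos
  have s1 : 0 < Real.sin η1 := Real.sin_pos_of_pos_of_lt_pi (by linarith) (by linarith)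
  have s2 : 0 < Real.sin η2 := Real.sin_pos_of_pos_of_lt_pi hη2 (by linarith)
  have hS0 : 0 < Real.sin (η1 + η2) := Real.sin_pos_of_pos_of_lt_pi (by linarith) hsum
  have hS1 : Real.sin (η1 + η2) ≤ 1 := Real.sin_le_one _
  have s1' : Real.sin η1 ≤ 1 := Real.sin_le_one _
  have s2' : Real.sin η2 ≤ 1 := Real.sin_le_one _
  have hc1' : Real.cos η1 ≤ 1 := Real.cos_le_one _
  have hc2' : Real.cos η2 ≤ 1 := Real.cos_le_one _
  obtain ⟨m, hm, hm'⟩ : ∃ m : ℝ, 0 < m ∧ (Real.cos η1 ≠ 0 → Real.cos η2 ≠ 0 →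
      m ≤ |Real.cos η1| ∧ m ≤ |Real.cos η2|) := by
    by_cases h : Real.cos η1 ≠ 0 ∧ Real.cos η2 ≠ 0
    · exact ⟨min |Real.cos η1| |Real.cos η2|, lt_min (abs_pos.2 h.1) (abs_pos.2 h.2),
        fun _ _ => ⟨min_le_left _ _, min_le_right _ _⟩⟩
    · exact ⟨1, one_pos, fun h1 h2 => absurd ⟨h1, h2⟩ h⟩
  refine ⟨4 / Real.sin (η1 + η2) + (2 + 4 / Real.sin (η1 + η2)) / m
    + 6 / (Real.sin (η1 + η2) * d), by positivity, ?_⟩
  intro n _ x A
  set b : Fin n → ℝ := fun j => bl (us η1 η2) (hh d) (A j) (x j) (x (j + 1)) with hbdef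
  have hnb : ∀ j, ‖x j - x (j + 1)‖ ≤ b j := fun j => norm_le_bl _ _ (norm_us η1 η2) _ _ _
  have hb0 : ∀ j, 0 ≤ b j := fun j => le_trans (norm_nonneg _) (hnb j)
  have hbL : ∀ j, b j ≤ ∑ i, b i := fun j =>
    Finset.single_le_sum (fun i _ => hb0 i) (Finset.mem_univ j)
  have hLn : Ln (us η1 η2) (hh d) x A = ∑ i, b i := rfl
  rw [hLn]
  set L := ∑ i, b i with hLdef
  have hL0 : 0 ≤ L := Finset.sum_nonneg (fun i _ => hb0 i)
  have hvis : ∀ s j, s ∈ A j → hh d s - ip (us η1 η2 s) (x 0) ≤ 2 * L := by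
    intro s j hj
    have h1 := (vis_le (us η1 η2) (hh d) (norm_us η1 η2) (A j) s hj (x j) (x (j + 1))).1
    have h2 := cyc2 x b hnb j 0
    have h3 := ip_diff_le (norm_us η1 η2 s) (x j) (x 0)
    have h4 := hbL j
    simp only [hbdef] at h4
    linarith
  have hrel := rel η1 η2 (x 0)
  have e1 := ip_us1 η1 η2 (x 0)
  have e2 := ip_us2 η1 η2 (x 0)
  have hs1re : |Real.sin η1 * (x 0).re| ≤ |(x 0).re| := by
    rw [abs_mul, abs_of_pos s1]
    exact mul_le_of_le_one_left (abs_nonneg _) s1'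
  have hs2re : |Real.sin η2 * (x 0).re| ≤ |(x 0).re| := by
    rw [abs_mul, abs_of_pos s2]
    exact mul_le_of_le_one_left (abs_nonneg _) s2'
  rw [abs_le] at hs1re hs2re
  constructor
  · intro hη1' hη2' hV hC
    have c1 : 0 < Real.cos η1 := Real.cos_pos_of_mem_Ioo ⟨by linarith, hη1'⟩
    have c2 : 0 < Real.cos η2 := Real.cos_pos_of_mem_Ioo ⟨by linarith, hη2'⟩
    obtain ⟨m1, m2⟩ := hm' c1.ne' c2.ne'
    rw [abs_of_pos c1] at m1
    rw [abs_of_pos c2] at m2
    obtain ⟨k0, hk0⟩ := hV.1 0 (by simp)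
    obtain ⟨k1, hk1⟩ := hV.1 1 (by simp)
    obtain ⟨k2, hk2⟩ := hV.1 2 (by simp)
    have v0 := hvis 0 k0 hk0
    have v1 := hvis 1 k1 hk1
    have v2 := hvis 2 k2 hk2
    rw [hh0, ip_us0] at v0
    rw [hh1] at v1
    rw [hh2] at v2
    have g1 : -(2 * L) ≤ Real.cos η2 * ip (us η1 η2 1) (x 0) := by nlinarith only [hc2', hL0, c2, v1]
    have g2 : -(2 * L) ≤ Real.cos η1 * ip (us η1 η2 2) (x 0) := by nlinarith only [hc1', hL0, c1, v2]
    refine loc_core hS0 hS1 hm hd hL0 rfl (x 0) (by linarith) (by linarith) ?_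
    rcases abs_cases (x 0).im with ⟨h, h'⟩ | ⟨h, h'⟩
    · rw [h]
      have : m * (x 0).im ≤ Real.cos η2 * (x 0).im := mul_le_mul_of_nonneg_right m2 h'
      linarith
    · rw [h]
      have : m * (-(x 0).im) ≤ Real.cos η1 * (-(x 0).im) :=
        mul_le_mul_of_nonneg_right m1 (by linarith)
      linarith
  · intro hη1' hV hC
    have c1 : Real.cos η1 < 0 := Real.cos_neg_of_pi_div_two_lt_of_lt hη1' (by linarith)
    have c2 : 0 < Real.cos η2 := Real.cos_pos_of_mem_Ioo ⟨by linarith, by linarith⟩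
    obtain ⟨m1, m2⟩ := hm' c1.ne c2.ne'
    rw [abs_of_neg c1] at m1
    rw [abs_of_pos c2] at m2
    obtain ⟨k0, hk0⟩ := hV.1 0 (by simp)
    obtain ⟨k1, hk1⟩ := hV.1 1 (by simp)
    have v0 := hvis 0 k0 hk0
    have v1 := hvis 1 k1 hk1
    have h2 : 2 ∉ A 0 := fun hj => by
      have := hV.2 0
      rw [Finset.disjoint_singleton_right] at this
      exact this hj
    have v2 := (hC 0 2 h2).1
    rw [hh0, ip_us0] at v0
    rw [hh1] at v1
    rw [hh2] at v2
    have g1 : -(2 * L) ≤ Real.cos η2 * ip (us η1 η2 1) (x 0) := by nlinarith only [hc2', hL0, c2, v1]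
    have g2 : 0 ≤ Real.cos η1 * ip (us η1 η2 2) (x 0) := (mul_pos_of_neg_of_neg c1 v2).le
    refine loc_core hS0 hS1 hm hd hL0 rfl (x 0) (by linarith) (by linarith) ?_
    rcases abs_cases (x 0).im with ⟨h, h'⟩ | ⟨h, h'⟩
    · rw [h]
      have : m * (x 0).im ≤ -Real.cos η1 * (x 0).im := mul_le_mul_of_nonneg_right m1 h'
      linarith
    · rw [h]
      have : m * (-(x 0).im) ≤ Real.cos η2 * (-(x 0).im) :=
        mul_le_mul_of_nonneg_right m2 (by linarith)
      linarith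

end Pool.Agent.H60K.H69
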